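import Pool.Agent.H67.AT.Targets

/-! USE: the uses in a block of `k * h` steps. -/

set_option autoImplicit false

open Finset PowerSeries

namespace Pool.Agent.H45.HAT

open Pool.Agent.H67.AT

theorem usk_add {X : Type} [Fintype X] [DecidableEq X] (P M : Matrix X X ℝ) (n h : ℕ) :
    usk P M (n + h) = usk P M n * P ^ h + P ^ n * usk P M h := by
  unfold usk
  rw [Finset.sum_range_add, Finset.sum_mul, Finset.mul_sum]
  refine congrArg₂ (· + ·) (Finset.sum_congr rfl (fun i hi => ?_))
    (Finset.sum_congr rfl (fun i hi => ?_))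
  · have h1 : n + h - 1 - i = (n - 1 - i) + h := by
      have := Finset.mem_range.1 hi
      omega
    rw [h1, pow_add, ← Matrix.mul_assoc]
  · have h1 : n + h - 1 - (n + i) = h - 1 - i := by
      have := Finset.mem_range.1 hi
      omega
    rw [h1, pow_add, Matrix.mul_assoc, Matrix.mul_assoc, Matrix.mul_assoc]

theorem pf_USE : T_USE := by
  intro X _ _ P M k h
  induction k with
  | zero =>
    rw [zero_mul, Finset.range_zero, Finset.sum_empty]
    unfold usk
    rw [Finset.range_zero, Finset.sum_empty]
  | succ k ih =>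
    rw [Nat.succ_mul, usk_add, ih, Finset.sum_range_succ, Finset.sum_mul]
    refine congrArg₂ (· + ·) (Finset.sum_congr rfl (fun j hj => ?_)) ?_
    · have h1 : k + 1 - 1 - j = (k - 1 - j) + 1 := by
        have := Finset.mem_range.1 hj
        omega
      rw [h1, pow_succ, Matrix.mul_assoc ((P ^ h) ^ j * usk P M h)]
    · have h1 : k + 1 - 1 - k = 0 := by omega
      rw [h1, pow_zero, Matrix.mul_one, mul_comm k h, pow_mul]

end Pool.Agent.H45.HAT
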